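import Pool.Agent.helper54.TS.Spec

set_option autoImplicit false

open Polynomial Finset

noncomputable section

namespace Pool.Agent.TS

open Pool.Agent.PSA (IsSalem Indep Fac)

/-- the vector of the neutral coordinates -/
def NNR_v {K : Type} [Field K] {k : ℕ} (φ : Fin k → K →+* ℂ) (x : K) : EuclideanSpace ℂ (Fin k) :=
  WithLp.toLp 2 (fun j => φ j x)

theorem NNR_nn {K : Type} [Field K] {k : ℕ} (φ : Fin k → K →+* ℂ) (x : K) : nn φ x = ‖NNR_v φ x‖ := by
  unfold nn NNR_v
  rw [EuclideanSpace.norm_eq]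

theorem NNR : NNR_stmt := by
  intro K _ k φ
  refine ⟨fun x => Real.sqrt_nonneg _, ?_, ?_, ?_, ?_, ?_, ?_, ?_⟩
  · unfold nn; simp
  · unfold nn; simp
  · intro x y
    rw [NNR_nn, NNR_nn, NNR_nn]
    have h : NNR_v φ (x + y) = NNR_v φ x + NNR_v φ y := by
      ext j
      simp [NNR_v]
    rw [h]
    exact norm_add_le _ _
  · intro x y
    rw [NNR_nn, NNR_nn, NNR_nn]
    have h : NNR_v φ (x - y) = NNR_v φ x - NNR_v φ y := by
      ext j
      simp [NNR_v]
    rw [h]
    exact norm_sub_le _ _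
  · intro x j
    unfold nn
    apply Real.le_sqrt_of_sq_le
    exact Finset.single_le_sum (f := fun j => ‖φ j x‖ ^ 2) (fun _ _ => sq_nonneg _) (Finset.mem_univ j)
  · intro η m x hη hm
    unfold nn
    rw [← Real.sqrt_sq hη, ← Real.sqrt_mul (sq_nonneg η), Finset.mul_sum]
    apply Real.sqrt_le_sqrt
    apply Finset.sum_le_sum
    intro j _
    rw [map_mul, norm_mul, mul_pow]
    apply mul_le_mul_of_nonneg_right _ (sq_nonneg _)
    exact pow_le_pow_left₀ (norm_nonneg _) (hm j) 2
  · intro m x hm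
    unfold nn
    congr 1
    apply Finset.sum_congr rfl
    intro j _
    rw [map_mul, norm_mul, hm j, one_mul]

end Pool.Agent.TS
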