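import Pool.Agent.helper54.TS.Spec

set_option autoImplicit false

open Polynomial Finset

noncomputable section

namespace Pool.Agent.TS

open Pool.Agent.PSA (IsSalem Indep Fac)

/-- the comparison sequence -/
def SQX_Y (z δ : ℝ) (c : ℕ → ℕ) (n : ℕ) : ℝ := if c n = 0 then δ else z ^ (c n) * (1 + δ)

theorem SQX_imp0 : imp 0 = 0 := by unfold imp; simp
theorem SQX_imp1 : imp 1 = 1 := by unfold imp; simp
theorem SQX_imp2 (m : ℕ) (h : 2 ≤ m) : imp m = 0 := by
  unfold imp; rw [if_neg (by omega)]

theorem SQX (hTLR : TLR_stmt) : SQX_stmt := by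
  intro z v δ h F u u' e c c' hz hz1 hh hzδ hRB hRun
  obtain ⟨X, hX⟩ : ∃ X : ℕ → ℝ, X = tl z (fun m => imp (c' m)) := ⟨_, rfl⟩
  have hδ := hRB.dlt
  have hδ1 := hRB.dl1
  have hδ2 := hRB.dl2
  rw [inv_inv] at hδ2
  have habs : ∀ n, |(fun m => imp (c' m)) n| ≤ 1 := by
    intro n
    show |imp (c' n)| ≤ 1
    unfold imp
    split_ifs <;> simp
  have hnn : ∀ n, 0 ≤ (fun m => imp (c' m)) n := by
    intro n
    show 0 ≤ imp (c' n)
    unfold imp
    split_ifs <;> norm_num
  obtain ⟨t1, _, t3, _, t5, _⟩ := hTLR z 1 (fun m => imp (c' m)) hz hz1 habs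
  rw [← hX] at t1 t3 t5
  have hX0 := t3 hnn
  have hYb : ∀ n, |SQX_Y z δ c n| ≤ 1 + δ := by
    intro n
    unfold SQX_Y
    split_ifs with h0
    · rw [abs_of_pos hδ]; linarith
    · rw [abs_of_nonneg (by positivity)]
      have : z ^ c n ≤ 1 := pow_le_one₀ hz.le hz1.le
      nlinarith
  have hcmp : ∀ n, z * ((fun m => imp (c' m)) n + SQX_Y z δ c (n + 1)) ≤ SQX_Y z δ c n := by
    intro n
    show z * (imp (c' n) + SQX_Y z δ c (n + 1)) ≤ SQX_Y z δ c n
    unfold SQX_Y
    rcases hRun.pl n with ⟨h1, _, h3, _⟩ | ⟨_, h2, _⟩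
    · have hc1 : c (n + 1) = c' n - 1 := hRun.cn n
      rw [SQX_imp2 _ (by omega), if_pos h1, if_neg (by omega), hc1, zero_add]
      have e1 : z * (z ^ (c' n - 1) * (1 + δ)) = z ^ (c' n) * (1 + δ) := by
        rw [← mul_assoc, ← pow_succ', Nat.sub_add_cancel (by omega)]
      rw [e1]
      have e2 : z ^ (c' n) ≤ z ^ (h + 1) := pow_le_pow_of_le_one hz.le hz1.le h3
      calc z ^ (c' n) * (1 + δ) ≤ z ^ (h + 1) * (1 + δ) := mul_le_mul_of_nonneg_right e2 (by linarith)
        _ ≤ δ := hzδ
    · have hc1 : c (n + 1) = c n - 1 := by rw [hRun.cn n, h2]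
      rw [h2, hc1]
      rcases Nat.lt_or_ge (c n) 2 with hlt | hge
      · interval_cases hcn : c n
        · rw [SQX_imp0, if_pos rfl, zero_add]
          nlinarith
        · rw [SQX_imp1, if_pos rfl, if_neg (by omega), pow_one]
      · rw [SQX_imp2 _ hge, if_neg (by omega), if_neg (by omega), zero_add]
        rw [← mul_assoc, ← pow_succ', Nat.sub_add_cancel (by omega)]
  have hXY : ∀ n, X n ≤ SQX_Y z δ c n := t5 (SQX_Y z δ c) (1 + δ) hYb hcmp
  have hXc0 : ∀ n, c n = 0 → X n ≤ δ := by
    intro n hn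
    have := hXY n
    unfold SQX_Y at this
    rw [if_pos hn] at this
    exact this
  have hXmax : ∀ n, X n ≤ max δ (z * (1 + δ)) := by
    intro n
    have := hXY n
    unfold SQX_Y at this
    split_ifs at this with h0
    · exact this.trans (le_max_left _ _)
    · refine this.trans (le_trans ?_ (le_max_right _ _))
      apply mul_le_mul_of_nonneg_right _ (by linarith)
      calc z ^ c n ≤ z ^ 1 := pow_le_pow_of_le_one hz.le hz1.le (by omega)
        _ = z := pow_one z
  have hpen : ∀ m n, c' n = m → pen z (c' n) ≤ X n := by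
    intro m
    induction m with
    | zero =>
      intro n hn
      unfold pen
      rw [if_pos hn]
      exact hX0 n
    | succ m ih =>
      intro n hn
      have hr := t1 n
      unfold pen
      rw [if_neg (by omega), hn]
      rcases Nat.eq_zero_or_pos m with h0 | h0
      · rw [h0] at hn ⊢
        have ha : imp (c' n) = 1 := by
          rw [hn]; exact SQX_imp1
        rw [ha] at hr
        rw [hr, zero_add, pow_one]
        have := hX0 (n + 1)
        nlinarith
      · have ha : imp (c' n) = 0 := SQX_imp2 _ (by omega)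
        have hc1 : c (n + 1) = m := by rw [hRun.cn n]; omega
        have hc2 : c' (n + 1) = m := by
          rcases hRun.pl (n + 1) with ⟨h1, _⟩ | ⟨_, h2, _⟩
          · omega
          · rw [h2, hc1]
        have := ih (n + 1) hc2
        unfold pen at this
        rw [if_neg (by omega), hc2] at this
        rw [ha, zero_add] at hr
        rw [hr, pow_succ']
        exact mul_le_mul_of_nonneg_left this hz.le
  intro n
  rw [← hX]
  refine ⟨hX0 n, hpen _ n rfl, hXc0 n, hXmax n, ?_⟩
  have hr := t1 n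
  by_cases h1 : c' n = 1
  · have ha : imp (c' n) = 1 := by
      rw [h1]; exact SQX_imp1
    have hc1 : c (n + 1) = 0 := by rw [hRun.cn n, h1]
    rw [ha] at hr
    have := hRB.z1 (X (n + 1)) (hX0 _) (hXc0 _ hc1)
    rw [inv_inv] at this
    rw [hr]
    exact this
  · have ha : imp (c' n) = 0 := by
      unfold imp
      rw [if_neg h1]
    rw [ha, zero_add] at hr
    have hlt : X (n + 1) < 1 := lt_of_le_of_lt (hXmax (n + 1)) (max_lt hδ1 hδ2)
    have := hRB.z0 (X (n + 1)) (hX0 _) hlt
    rw [inv_inv] at this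
    rw [hr]
    exact this

end Pool.Agent.TS
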